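import Mathlib
import Pool.Agent.PageNum.Defs
import Pool.Agent.PageNum.Lower
import Pool.Agent.PageNum.Small

/-!
# The local page number of `K_n` is `⌈n/3⌉`, up to one when `3` divides `⌈n/3⌉`
-/

namespace Pool.Agent.Results.MP_a966e6_co.LocalNearExact

open Pool.Agent.PageNum

/-- For `n ≥ 2`: `⌈n/3⌉ ≤ pn_ℓ(K_n) ≤ ⌈n/3⌉ + 1`, and `pn_ℓ(K_n) = ⌈n/3⌉` whenever `3` does
not divide `⌈n/3⌉`. Here `⌈n/3⌉ = (n + 2) / 3`. -/
theorem result (n : ℕ) (hn : 2 ≤ n) :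
    (n + 2) / 3 ≤ localPageNumber (⊤ : SimpleGraph (Fin n)) ∧
    localPageNumber (⊤ : SimpleGraph (Fin n)) ≤ (n + 2) / 3 + 1 ∧
    (¬ 3 ∣ (n + 2) / 3 → localPageNumber (⊤ : SimpleGraph (Fin n)) = (n + 2) / 3) := by
  have h1 : LocalBook (⊤ : SimpleGraph (Fin n)) (localPageNumber (⊤ : SimpleGraph (Fin n))) :=
    Nat.sInf_mem (localBook_exists _)
  have h4 := LocalBook.le (Fintype.card_fin n) hn h1
  have h5 : ¬ 3 ∣ (n + 2) / 3 → localPageNumber (⊤ : SimpleGraph (Fin n)) ≤ (n + 2) / 3 :=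
    fun h => Nat.sInf_le (localBook_le (by omega) (by omega))
  have h6 : 3 ∣ (n + 2) / 3 → localPageNumber (⊤ : SimpleGraph (Fin n)) ≤ (n + 2) / 3 + 1 :=
    fun h => Nat.sInf_le (localBook_le (by omega) (by omega))
  refine ⟨by omega, ?_, fun h => ?_⟩
  · by_cases h : 3 ∣ (n + 2) / 3
    · exact h6 h
    · exact (h5 h).trans (Nat.le_succ _)
  · exact le_antisymm (h5 h) (by omega)

end Pool.Agent.Results.MP_a966e6_co.LocalNearExact
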