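import Mathlib
import Pool.Agent.PageNum.Defs
import Pool.Agent.PageNum.Lower
import Pool.Agent.PageNum.UMain

/-!
# The union page number of `K_n` is `n/3 + O(log n)`
-/

namespace Pool.Agent.Results.MP_a966e6_co.UnionThird

open Pool.Agent.PageNum

/-- For `n ≥ 2`: `n ≤ 3 pn_u(K_n) ≤ n + 168 (⌊log₂ n⌋ + 1)`. -/
theorem result (n : ℕ) (hn : 2 ≤ n) :
    n ≤ 3 * unionPageNumber (⊤ : SimpleGraph (Fin n)) ∧
    3 * unionPageNumber (⊤ : SimpleGraph (Fin n)) ≤ n + 168 * (Nat.log 2 n + 1) := by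
  constructor
  · have h2 : UnionBook (⊤ : SimpleGraph (Fin n)) (unionPageNumber (⊤ : SimpleGraph (Fin n))) :=
      Nat.sInf_mem (unionBook_exists _)
    exact LocalBook.le (Fintype.card_fin n) hn (LocalBook.of_unionBook h2)
  · obtain ⟨K, hK1, hK2⟩ := UB.bound n (by omega)
    have h3 : unionPageNumber (⊤ : SimpleGraph (Fin n)) ≤ K := Nat.sInf_le hK1.unionBook
    omega

end Pool.Agent.Results.MP_a966e6_co.UnionThird
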